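import Pool.Agent.Helper67.KPG.St1

/-!
# Project KP, chapter G, module SLT (`sl2`-modules)
-/

set_option autoImplicit false

namespace Pool.Agent.Helper72.KPG

open Pool.Agent.Helper67.NO Pool.Agent.Helper52.KP Pool.Agent.Helper67.KPG

universe u

section aux

variable {V : Type u} [AddCommGroup V] [Module ℂ V]

/-- `H A^k = A^k (H + 2 k)` -/
private lemma HA {A H : Module.End ℂ V} (h : H * A - A * H = (2 : ℂ) • A) (k : ℕ) (v : V) :
    H ((A ^ k) v) = (A ^ k) (H v) + (2 * (k : ℂ)) • (A ^ k) v := by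
  have h1 : ∀ v, H (A v) = A (H v) + (2 : ℂ) • A v := by
    intro v
    have h2 := congrArg (fun f : Module.End ℂ V => f v) h
    simp only [LinearMap.sub_apply, Module.End.mul_apply, LinearMap.smul_apply] at h2
    rw [← h2]
    abel
  induction k generalizing v with
  | zero => simp
  | succ k ih =>
    rw [pow_succ, Module.End.mul_apply, ih (A v), h1 v, map_add, map_smul, Module.End.mul_apply,
      add_assoc, ← add_smul]
    push_cast
    congr 2
    ring

private lemma top_pow {A : Module.End ℂ V} (hA : IsNilpotent A) {v : V} (hv : v ≠ 0) :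
    ∃ k : ℕ, (A ^ k) v ≠ 0 ∧ A ((A ^ k) v) = 0 := by
  classical
  obtain ⟨n, hn⟩ := hA
  have hex : ∃ k, (A ^ k) v = 0 := ⟨n, by rw [hn]; rfl⟩
  have hpos : Nat.find hex ≠ 0 := by
    intro h0
    have h1 := Nat.find_spec hex
    rw [h0] at h1
    exact hv (by simpa using h1)
  obtain ⟨k, hk⟩ := Nat.exists_eq_succ_of_ne_zero hpos
  refine ⟨k, Nat.find_min hex (by omega), ?_⟩
  have h1 := Nat.find_spec hex
  rw [hk, Nat.succ_eq_add_one, pow_succ'] at h1
  exact h1

private lemma two [FiniteDimensional ℂ V] (hCAS : StCAS.{u}) (A B H : Module.End ℂ V)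
    (h1 : H * A - A * H = (2 : ℂ) • A) (h2 : H * B - B * H = -((2 : ℂ) • B))
    (h3 : A * B - B * A = H) (j : ℕ) (v : V) (hv : H v = -((j : ℂ) • v))
    (hA : (A ^ j) v = 0) : v = 0 := by
  obtain ⟨cA, cB, cH, nA, nB, hμ⟩ := hCAS V A B H h1 h2 h3
  by_contra hv0
  obtain ⟨W, hW⟩ : ∃ W : Submodule ℂ V, W = H.eigenspace (-(j : ℂ)) ⊓ LinearMap.ker (A ^ j) :=
    ⟨_, rfl⟩
  have hmem : ∀ x, x ∈ W ↔ H x = (-(j : ℂ)) • x ∧ (A ^ j) x = 0 := by
    intro x
    rw [hW, Submodule.mem_inf, Module.End.mem_eigenspace_iff, LinearMap.mem_ker]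
  have hst : ∀ x ∈ W, cas A B H x ∈ W := by
    intro x hx
    rw [hmem] at hx ⊢
    constructor
    · have e1 : H (cas A B H x) = cas A B H (H x) := by
        rw [← Module.End.mul_apply, ← Module.End.mul_apply, cH.eq]
      rw [e1, hx.1, map_smul]
    · have e1 : (A ^ j) (cas A B H x) = cas A B H ((A ^ j) x) := by
        rw [← Module.End.mul_apply, ← Module.End.mul_apply, (cA.pow_right j).eq]
      rw [e1, hx.2, map_zero]
  have hvW : v ∈ W := by
    rw [hmem]
    exact ⟨by rw [hv, neg_smul], hA⟩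
  have hnt : Nontrivial W := ⟨⟨⟨v, hvW⟩, 0, fun h => hv0 (congrArg Subtype.val h)⟩⟩
  obtain ⟨μ, hm⟩ := Module.End.exists_eigenvalue ((cas A B H).restrict hst)
  obtain ⟨⟨x, hxW⟩, hx1, hx0⟩ := hm.exists_hasEigenvector
  rw [Module.End.mem_eigenspace_iff] at hx1
  have hx2 : cas A B H x = μ • x := congrArg Subtype.val hx1
  have hx3 : x ≠ 0 := fun h => hx0 (Subtype.ext h)
  rw [hmem] at hxW
  obtain ⟨i, hi⟩ := hμ μ
  have hin : ∀ (D : Module.End ℂ V) (k : ℕ), Commute (cas A B H) D →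
      (D ^ k) x ∈ (cas A B H).maxGenEigenspace μ := by
    intro D k hD
    apply Module.End.genEigenspace_le_maximal (k := 1)
    change _ ∈ Module.End.eigenspace _ _
    rw [Module.End.mem_eigenspace_iff]
    have e1 : (D ^ k) (cas A B H x) = cas A B H ((D ^ k) x) := by
      rw [← Module.End.mul_apply, ← Module.End.mul_apply, (hD.pow_right k).eq]
    rw [← e1, hx2, map_smul]
  -- the top power of `A`
  obtain ⟨k, hk1, hk2⟩ := top_pow nA hx3
  have e1 := (hi _ (hin A k cA)).1 hk2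
  rw [HA h1, hxW.1, map_smul, ← add_smul] at e1
  have e2 : (-(j : ℂ) + 2 * k) = i := smul_left_injective ℂ hk1 e1
  -- the top power of `B`
  have h2' : (-H) * B - B * (-H) = (2 : ℂ) • B := by
    rw [neg_mul, mul_neg, sub_neg_eq_add, ← neg_eq_iff_eq_neg.2 h2]
    abel
  obtain ⟨l, hl1, hl2⟩ := top_pow nB hx3
  have e3 := (hi _ (hin B l cB)).2 hl2
  have e4 := HA h2' l x
  rw [LinearMap.neg_apply, LinearMap.neg_apply, hxW.1, ← neg_smul, neg_neg, map_smul, ← add_smul,
    e3, neg_neg] at e4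
  have e5 : (i : ℂ) = j + 2 * l := smul_left_injective ℂ hl1 e4
  have e6 : i = j + 2 * l := by exact_mod_cast e5
  have e7 : (2 * k : ℂ) = i + j := by rw [← e2]; ring
  have e8 : 2 * k = i + j := by exact_mod_cast e7
  have hjk : j ≤ k := by omega
  apply hk1
  obtain ⟨d, rfl⟩ := Nat.exists_eq_add_of_le' hjk
  rw [pow_add, Module.End.mul_apply, hxW.2, map_zero]

/-- one more eigenvalue -/
private lemma step {H : Module.End ℂ V} {a : ℂ} {k : ℕ} {c : Fin k → ℂ} (hc : ∀ l, c l ≠ a)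
    (w : V) (hw : w ∈ ⨆ l, H.eigenspace (c l)) : ∃ u ∈ ⨆ l, H.eigenspace (c l),
      H u - a • u = w := by
  refine Submodule.iSup_induction (fun l => H.eigenspace (c l)) (motive := fun w =>
    ∃ u ∈ ⨆ l, H.eigenspace (c l), H u - a • u = w) hw ?_ ?_ ?_
  · intro l x hx
    have hx' := Module.End.mem_eigenspace_iff.1 hx
    refine ⟨(c l - a)⁻¹ • x, Submodule.smul_mem _ _ (Submodule.mem_iSup_of_mem l hx), ?_⟩
    rw [map_smul, hx', smul_comm a, ← smul_sub, ← sub_smul, smul_smul,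
      inv_mul_cancel₀ (sub_ne_zero.2 (hc l)), one_smul]
  · exact ⟨0, zero_mem _, by simp⟩
  · rintro x y ⟨u, hu, hu2⟩ ⟨u', hu', hu2'⟩
    refine ⟨u + u', add_mem hu hu', ?_⟩
    rw [← hu2, ← hu2', map_add, smul_add]
    abel

private lemma one [FiniteDimensional ℂ V] (hCAS : StCAS.{u}) (A B H : Module.End ℂ V)
    (h1 : H * A - A * H = (2 : ℂ) • A) (h2 : H * B - B * H = -((2 : ℂ) • B))
    (h3 : A * B - B * A = H) : (⨆ j : ℤ, H.eigenspace (j : ℂ)) = ⊤ := by
  obtain ⟨cA, cB, cH, nA, nB, hμ⟩ := hCAS V A B H h1 h2 h3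
  rw [eq_top_iff, ← Module.End.iSup_maxGenEigenspace_eq_top (cas A B H)]
  refine iSup_le fun μ => ?_
  obtain ⟨i, hi⟩ := hμ μ
  have hstab : ∀ (D : Module.End ℂ V), Commute (cas A B H) D →
      ∀ x ∈ (cas A B H).maxGenEigenspace μ, D x ∈ (cas A B H).maxGenEigenspace μ := by
    intro D hD x hx
    exact Module.End.mapsTo_maxGenEigenspace_of_comm hD μ hx
  have key : ∀ (k : ℕ), ∀ v ∈ (cas A B H).maxGenEigenspace μ, (A ^ k) v = 0 →
      v ∈ ⨆ l : Fin k, H.eigenspace ((i : ℂ) - 2 * (l : ℕ)) := by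
    intro k
    induction k with
    | zero =>
      intro v _ hv
      have : v = 0 := by simpa using hv
      rw [this]
      exact zero_mem _
    | succ k ih =>
      intro v hv hv0
      have hAk : A ((A ^ k) v) = 0 := by
        rw [← Module.End.mul_apply, ← pow_succ']
        exact hv0
      have hAm : (A ^ k) v ∈ (cas A B H).maxGenEigenspace μ := hstab _ (cA.pow_right k) v hv
      have e1 := (hi _ hAm).1 hAk
      have e2 := HA h1 k v
      rw [e1] at e2
      have e3 : (A ^ k) (H v - ((i : ℂ) - 2 * (k : ℕ)) • v) = 0 := by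
        rw [map_sub, map_smul, sub_smul, e2]
        abel
      have hw : H v - ((i : ℂ) - 2 * (k : ℕ)) • v ∈ (cas A B H).maxGenEigenspace μ :=
        sub_mem (hstab _ cH v hv) (Submodule.smul_mem _ _ hv)
      obtain ⟨u, hu, hu2⟩ := step (a := (i : ℂ) - 2 * (k : ℕ)) (fun l h => by
        have h4 : (l : ℕ) = k := by
          have h5 : (2 : ℂ) * (l : ℕ) = 2 * (k : ℕ) := sub_right_injective h
          exact_mod_cast mul_left_cancel₀ two_ne_zero h5
        omega) _ (ih _ hw e3)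
      have h6 : v - u ∈ H.eigenspace ((i : ℂ) - 2 * (k : ℕ)) := by
        rw [Module.End.mem_eigenspace_iff, map_sub, smul_sub, sub_eq_sub_iff_sub_eq_sub, hu2]
      have h7 : v = (v - u) + u := by abel
      rw [h7]
      refine add_mem ?_ ?_
      · exact Submodule.mem_iSup_of_mem (Fin.last k) h6
      · refine (iSup_le fun l => ?_ : (⨆ l : Fin k, H.eigenspace ((i : ℂ) - 2 * (l : ℕ))) ≤ _) hu
        exact le_iSup (fun l : Fin (k + 1) => H.eigenspace ((i : ℂ) - 2 * (l : ℕ))) l.castSucc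
  intro v hv
  obtain ⟨n, hn⟩ := nA
  refine (iSup_le fun l => ?_ : (⨆ l : Fin n, H.eigenspace ((i : ℂ) - 2 * (l : ℕ))) ≤ _)
    (key n v hv (by rw [hn]; rfl))
  have h8 : ((i : ℂ) - 2 * (l : ℕ)) = (((i : ℤ) - 2 * (l : ℕ) : ℤ) : ℂ) := by push_cast; rfl
  rw [h8]
  exact le_iSup (fun j : ℤ => H.eigenspace (j : ℂ)) _

end aux

theorem hSLT (hCAS : StCAS.{u}) : StSLT.{u} := by
  intro V _ _ _ A B H h1 h2 h3
  refine ⟨one hCAS A B H h1 h2 h3, two hCAS A B H h1 h2 h3, fun j v hv hB => ?_⟩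
  refine two hCAS B A (-H) ?_ ?_ ?_ j v ?_ hB
  · rw [neg_mul, mul_neg, sub_neg_eq_add, ← neg_eq_iff_eq_neg.2 h2]
    abel
  · rw [neg_mul, mul_neg, sub_neg_eq_add, ← h1]
    abel
  · rw [← h3]
    abel
  · rw [LinearMap.neg_apply, hv]

end Pool.Agent.Helper72.KPG
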